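import Pool.Agent.Q76.H2.Stm

set_option autoImplicit false
set_option linter.unusedSectionVars false

open Set Filter Topology MeasureTheory

namespace Pool.Agent.Q95.H2.O2

open Pool.Agent.Q76.HR Pool.Agent.Q76.H2

variable {F : Type} [NormedAddCommGroup F] [InnerProductSpace ℝ F] [FiniteDimensional ℝ F]

/-- The affine equivalences which preserve the graph. -/
def St (f : F → ℝ) (W : Sp F ≃ᵃ[ℝ] Sp F) : Prop := ∀ p, p ∈ Gr f ↔ W p ∈ Gr f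

lemma St.mul {f : F → ℝ} {V W : Sp F ≃ᵃ[ℝ] Sp F} (hV : St f V) (hW : St f W) : St f (V * W) := by
  intro p
  rw [AffineEquiv.mul_def, AffineEquiv.trans_apply, ← hV, ← hW]

lemma St.inv {f : F → ℝ} {V : Sp F ≃ᵃ[ℝ] Sp F} (hV : St f V) : St f V⁻¹ := by
  intro p
  rw [AffineEquiv.inv_def, hV (V.symm p), AffineEquiv.apply_symm_apply]

lemma lmul {V W : Sp F ≃ᵃ[ℝ] Sp F} {x y z : Sp F} {a b : ℝ} (hW : W.linear x = a • y)
    (hV : V.linear y = b • z) : (V * W).linear x = (a * b) • z := by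
  have h : (V * W).linear x = V.linear (W.linear x) := rfl
  rw [h, hW, map_smul, hV, smul_smul]

lemma linv {V : Sp F ≃ᵃ[ℝ] Sp F} {x y : Sp F} {a : ℝ} (ha : a ≠ 0) (hV : V.linear x = a • y) :
    (V⁻¹).linear y = a⁻¹ • x := by
  have h : (V⁻¹).linear y = V.linear.symm y := rfl
  rw [h, LinearEquiv.symm_apply_eq, map_smul, hV, smul_smul, inv_mul_cancel₀ ha, one_smul]

lemma cj {T A : Sp F ≃ᵃ[ℝ] Sp F} {u v : Sp F} {a s : ℝ} (ha : a ≠ 0) (hT : T.linear u = a • v)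
    (hA : A.linear u = s • u) : (T * A * T⁻¹).linear v = s • v := by
  have h1 := lmul (linv ha hT) (lmul hA hT)
  rw [h1]
  congr 1
  field_simp

/-- The scaling of the horizontal part. -/
noncomputable def Dl (c : ℝ) (hc : c ≠ 0) : Sp F ≃ₗ[ℝ] Sp F where
  toFun q := pt (c • q.fst) q.snd
  invFun q := pt (c⁻¹ • q.fst) q.snd
  map_add' p q := by
    refine ext' ?_ ?_
    · simp
    · simp
  map_smul' r q := by
    refine ext' ?_ ?_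
    · simp only [pt_fst, fst_smul, RingHom.id_apply]
      rw [smul_comm]
    · simp
  left_inv q := by
    refine ext' ?_ ?_
    · simp [smul_smul, inv_mul_cancel₀ hc]
    · simp
  right_inv q := by
    refine ext' ?_ ?_
    · simp [smul_smul, mul_inv_cancel₀ hc]
    · simp

lemma Dl_apply (c : ℝ) (hc : c ≠ 0) (q : Sp F) : Dl c hc q = pt (c • q.fst) q.snd := rfl

/-- The self-map of the graph. -/
noncomputable def Tm (c : ℝ) (hc : c ≠ 0) (O : Sp F ≃ₗᵢ[ℝ] Sp F) (τ : Sp F) : Sp F ≃ᵃ[ℝ] Sp F :=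
  (O.toLinearEquiv.trans (Dl c hc)).toAffineEquiv.trans
    (AffineEquiv.constVAdd ℝ (Sp F) (Dl c hc τ))

lemma Tm_apply (c : ℝ) (hc : c ≠ 0) (O : Sp F ≃ₗᵢ[ℝ] Sp F) (τ p : Sp F) :
    Tm c hc O τ p = Dl c hc (O p + τ) := by
  have h : Tm c hc O τ p = Dl c hc τ + Dl c hc (O p) := rfl
  rw [h, map_add, add_comm]

lemma Tm_linear (c : ℝ) (hc : c ≠ 0) (O : Sp F ≃ₗᵢ[ℝ] Sp F) (τ p : Sp F) :
    (Tm c hc O τ).linear p = Dl c hc (O p) := rfl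

lemma St_Tm {f : F → ℝ} {c : ℝ} (hc : c ≠ 0) {O : Sp F ≃ₗᵢ[ℝ] Sp F} {τ : Sp F}
    (h : Rel O τ f (sc f c)) : St f (Tm c hc O τ) := by
  intro p
  rw [h p, Tm_apply, Dl_apply]
  rfl

lemma exists_sign {O U : Sp F ≃ₗᵢ[ℝ] Sp F} (h : (∀ p, U p = O p) ∨ (∀ p, U p = -(O p))) :
    ∃ e : ℝ, e * e = 1 ∧ ∀ p, O p = e • U p := by
  rcases h with h | h
  · exact ⟨1, by norm_num, fun p => by rw [h, one_smul]⟩
  · exact ⟨-1, by norm_num, fun p => by rw [h, smul_neg, neg_smul, one_smul, neg_neg]⟩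

lemma Dl_pt (c : ℝ) (hc : c ≠ 0) (n : F) : Dl c hc (pt n 0) = c • pt n 0 := by
  rw [Dl_apply]
  refine ext' ?_ ?_
  · simp
  · simp

lemma Dl_ev (c : ℝ) (hc : c ≠ 0) : Dl c hc (ev : Sp F) = (1:ℝ) • ev := by
  rw [Dl_apply]
  refine ext' ?_ ?_
  · simp
  · simp

lemma Tm_of {c : ℝ} (hc : c ≠ 0) {O U : Sp F ≃ₗᵢ[ℝ] Sp F} (τ : Sp F) {e : ℝ}
    (he : ∀ p, O p = e • U p) {x y : Sp F} {s : ℝ} (hU : U x = y) (hD : Dl c hc y = s • y) :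
    (Tm c hc O τ).linear x = (e * s) • y := by
  rw [Tm_linear, he, hU, map_smul, hD, smul_smul]

/-- The final step in the cases A, B, C. -/
lemma fin3 (h3 : S_O3 F) {f : F → ℝ} (hf : Continuous f) {n₁ n₂ : F} (h1 : ‖n₁‖ = 1)
    (h2 : ‖n₂‖ = 1) (h12 : inner ℝ n₁ n₂ = 0) (hb : ∀ x : F, x = inner ℝ n₁ x • n₁ + inner ℝ n₂ x • n₂)
    {A B C : Sp F ≃ᵃ[ℝ] Sp F} (hA : St f A) (hB : St f B) (hC : St f C) {c : ℝ} (hc : 0 < c)
    (hc1 : c ≠ 1)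
    {a₁ a₂ a₃ b₁ b₂ b₃ : ℝ}
    (hA1 : A.linear (pt n₁ 0) = a₁ • pt n₁ 0) (hA2 : A.linear (pt n₂ 0) = a₂ • pt n₂ 0)
    (hA3 : A.linear ev = a₃ • ev)
    (hB1 : B.linear (pt n₁ 0) = c • pt n₁ 0) (hB2 : B.linear (pt n₂ 0) = c • pt n₂ 0)
    (hB3 : B.linear ev = (c * c) • ev)
    (hC1 : C.linear (pt n₁ 0) = b₁ • pt n₁ 0) (hC2 : C.linear (pt n₂ 0) = b₂ • pt n₂ 0)
    (hC3 : C.linear ev = b₃ • ev)
    (h4 : a₁ * b₁ = c * (c * c)) (h5 : a₂ * b₂ = c * (c * c)) (h6 : a₃ * b₃ = c * c) :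
    ∀ x y, f x = f y := by
  have hp : c * (c * c) ≠ 0 := by positivity
  have hp' : c * c ≠ 0 := by positivity
  have ha1 : a₁ ≠ 0 := fun h => hp (by rw [← h4, h, zero_mul])
  have hb1 : b₁ ≠ 0 := fun h => hp (by rw [← h4, h, mul_zero])
  have ha2 : a₂ ≠ 0 := fun h => hp (by rw [← h5, h, zero_mul])
  have hb2 : b₂ ≠ 0 := fun h => hp (by rw [← h5, h, mul_zero])
  have ha3 : a₃ ≠ 0 := fun h => hp' (by rw [← h6, h, zero_mul])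
  have hb3 : b₃ ≠ 0 := fun h => hp' (by rw [← h6, h, mul_zero])
  set W : Sp F ≃ᵃ[ℝ] Sp F := B * B * A⁻¹ * C⁻¹ with hW
  have hWS : St f W := ((hB.mul hB).mul hA.inv).mul hC.inv
  have e1 : W.linear (pt n₁ 0) = c⁻¹ • pt n₁ 0 := by
    rw [lmul (linv hb1 hC1) (lmul (linv ha1 hA1) (lmul hB1 hB1))]
    congr 1
    have : b₁⁻¹ * (a₁⁻¹ * (c * c)) = (c * c) / (a₁ * b₁) := by field_simp
    rw [this, h4]
    field_simp
  have e2 : W.linear (pt n₂ 0) = c⁻¹ • pt n₂ 0 := by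
    rw [lmul (linv hb2 hC2) (lmul (linv ha2 hA2) (lmul hB2 hB2))]
    congr 1
    have : b₂⁻¹ * (a₂⁻¹ * (c * c)) = (c * c) / (a₂ * b₂) := by field_simp
    rw [this, h5]
    field_simp
  have e3 : W.linear ev = (c * c) • ev := by
    rw [lmul (linv hb3 hC3) (lmul (linv ha3 hA3) (lmul hB3 hB3))]
    congr 1
    have : b₃⁻¹ * (a₃⁻¹ * (c * c * (c * c))) = (c * c) * (c * c) / (a₃ * b₃) := by field_simp
    rw [this, h6]
    field_simp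
  refine h3 f hf n₁ n₂ h1 h2 h12 hb W c⁻¹ c⁻¹ (c * c) hWS e1 e2 e3 ?_
  rcases lt_or_gt_of_ne hc1 with h | h
  · right
    refine ⟨(one_lt_inv₀ hc).2 h, (one_lt_inv₀ hc).2 h, by positivity, by nlinarith⟩
  · left
    refine ⟨by positivity, inv_lt_one_of_one_lt₀ h, by positivity, inv_lt_one_of_one_lt₀ h, by nlinarith⟩

/-- The final step in the case D. -/
lemma fin2 (h3 : S_O3 F) {f : F → ℝ} (hf : Continuous f) {n₁ n₂ : F} (h1 : ‖n₁‖ = 1)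
    (h2 : ‖n₂‖ = 1) (h12 : inner ℝ n₁ n₂ = 0) (hb : ∀ x : F, x = inner ℝ n₁ x • n₁ + inner ℝ n₂ x • n₂)
    {A B : Sp F ≃ᵃ[ℝ] Sp F} (hA : St f A) (hB : St f B) {e : ℝ} (he : e * e = 1)
    {a₁ a₂ a₃ b₁ b₂ b₃ r₁ r₂ r₃ : ℝ}
    (hA1 : A.linear (pt n₁ 0) = (e * a₁) • pt n₁ 0) (hA2 : A.linear (pt n₂ 0) = (e * a₂) • pt n₂ 0)
    (hA3 : A.linear ev = (e * a₃) • ev)
    (hB1 : B.linear (pt n₁ 0) = (e * b₁) • pt n₁ 0) (hB2 : B.linear (pt n₂ 0) = (e * b₂) • pt n₂ 0)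
    (hB3 : B.linear ev = (e * b₃) • ev) (hb1 : b₁ ≠ 0) (hb2 : b₂ ≠ 0) (hb3 : b₃ ≠ 0)
    (h4 : a₁ = b₁ * r₁) (h5 : a₂ = b₂ * r₂) (h6 : a₃ = b₃ * r₃)
    (hr : (0 < r₁ ∧ r₁ < 1 ∧ 0 < r₂ ∧ r₂ < 1 ∧ 1 ≤ r₃) ∨ (1 < r₁ ∧ 1 < r₂ ∧ 0 < r₃ ∧ r₃ ≤ 1)) :
    ∀ x y, f x = f y := by
  have he0 : e ≠ 0 := by
    intro h
    rw [h, zero_mul] at he
    exact zero_ne_one he
  set W : Sp F ≃ᵃ[ℝ] Sp F := A * B⁻¹ with hW
  have hWS : St f W := hA.mul hB.inv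
  refine h3 f hf n₁ n₂ h1 h2 h12 hb W r₁ r₂ r₃ hWS ?_ ?_ ?_ hr
  · rw [lmul (linv (mul_ne_zero he0 hb1) hB1) hA1]
    congr 1
    rw [h4]
    field_simp
  · rw [lmul (linv (mul_ne_zero he0 hb2) hB2) hA2]
    congr 1
    rw [h5]
    field_simp
  · rw [lmul (linv (mul_ne_zero he0 hb3) hB3) hA3]
    congr 1
    rw [h6]
    field_simp


theorem a (F : Type) [NormedAddCommGroup F] [InnerProductSpace ℝ F] [FiniteDimensional ℝ F]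
    (h3 : S_O3 F) : S_O2 F := by
  intro f hf n₁ n₂ h1 h2 h12 hb c₁ c₂ hc₁ hc₂ hc₁1 hc₂1 hcc O₁ O₂ U₁ U₂ τ₁ τ₂ hR₁ hR₂ hs₁ hs₂
    hU₁ hU₂ hcase₁ hcase₂
  have k₁ : c₁ ≠ 0 := hc₁.ne'
  have k₂ : c₂ ≠ 0 := hc₂.ne'
  obtain ⟨e₁, he₁, hO₁⟩ := exists_sign hs₁
  obtain ⟨e₂, he₂, hO₂⟩ := exists_sign hs₂
  have he₁0 : e₁ ≠ 0 := by
    intro h
    rw [h, zero_mul] at he₁
    exact zero_ne_one he₁
  have he₂0 : e₂ ≠ 0 := by
    intro h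
    rw [h, zero_mul] at he₂
    exact zero_ne_one he₂
  have hS₁ : St f (Tm c₁ k₁ O₁ τ₁) := St_Tm k₁ hR₁
  have hS₂ : St f (Tm c₂ k₂ O₂ τ₂) := St_Tm k₂ hR₂
  have p1 := Tm_of k₁ τ₁ hO₁ hU₁ (Dl_ev c₁ k₁)
  have q2 := Tm_of k₂ τ₂ hO₂ hU₂ (Dl_ev c₂ k₂)
  set T₁ := Tm c₁ k₁ O₁ τ₁ with hT₁
  set T₂ := Tm c₂ k₂ O₂ τ₂ with hT₂
  have n10 : e₁ * 1 ≠ 0 := by rw [mul_one]; exact he₁0
  have n20 : e₂ * 1 ≠ 0 := by rw [mul_one]; exact he₂0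
  have n11 : e₁ * c₁ ≠ 0 := mul_ne_zero he₁0 k₁
  have n21 : e₂ * c₂ ≠ 0 := mul_ne_zero he₂0 k₂
  rcases hcase₁ with ⟨ha, hb'⟩ | ⟨ha, hb'⟩
  · -- `T₁` exchanges `X₁` and `X₀`
    have p0 := Tm_of k₁ τ₁ hO₁ ha (Dl_pt c₁ k₁ n₁)
    have p2 := Tm_of k₁ τ₁ hO₁ hb' (Dl_pt c₁ k₁ n₂)
    have hAS : St f (T₁ * T₁) := hS₁.mul hS₁
    have A1 : (T₁ * T₁).linear (pt n₁ 0) = c₁ • pt n₁ 0 := by
      rw [lmul p1 p0]; congr 1; linear_combination c₁ * he₁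
    have A0 : (T₁ * T₁).linear ev = c₁ • ev := by
      rw [lmul p0 p1]; congr 1; linear_combination c₁ * he₁
    have A2 : (T₁ * T₁).linear (pt n₂ 0) = (c₁ * c₁) • pt n₂ 0 := by
      rw [lmul p2 p2]; congr 1; linear_combination c₁ * c₁ * he₁
    rcases hcase₂ with ⟨hc', hd⟩ | ⟨hc', hd⟩
    · -- case A
      have q0 := Tm_of k₂ τ₂ hO₂ hc' (Dl_pt c₂ k₂ n₂)
      have q1 := Tm_of k₂ τ₂ hO₂ hd (Dl_pt c₂ k₂ n₁)
      have hBS : St f (T₂ * (T₁ * T₁) * T₂⁻¹) := (hS₂.mul hAS).mul hS₂.inv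
      have B0 := cj n20 q2 A2
      have B2 := cj n21 q0 A0
      have B1 := cj n21 q1 A1
      have hCS := (hS₁.mul hBS).mul hS₁.inv
      have C0 := cj n10 p1 B1
      have C1 := cj n11 p0 B0
      have C2 := cj n11 p2 B2
      exact fin3 h3 hf h1 h2 h12 hb hAS hBS hCS hc₁ hc₁1 A1 A2 A0 B1 B2 B0 C1 C2 C0 rfl (by ring) rfl
    · -- case B
      have q0 := Tm_of k₂ τ₂ hO₂ hc' (Dl_pt c₂ k₂ n₁)
      have q1 := Tm_of k₂ τ₂ hO₂ hd (Dl_pt c₂ k₂ n₂)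
      have hBS : St f (T₂ * (T₁ * T₁) * T₂⁻¹) := (hS₂.mul hAS).mul hS₂.inv
      have B0 := cj n20 q2 A2
      have B1 := cj n21 q0 A0
      have B2 := cj n21 q1 A1
      have hCS := (hS₂.mul hBS).mul hS₂.inv
      have C0 := cj n20 q2 B2
      have C1 := cj n21 q0 B0
      have C2 := cj n21 q1 B1
      exact fin3 h3 hf h1 h2 h12 hb hAS hBS hCS hc₁ hc₁1 A1 A2 A0 B1 B2 B0 C1 C2 C0 rfl (by ring) rfl
  · -- `T₁` maps `X₁` to `X₀`, `X₀` to `X₂`, `X₂` to `X₁`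
    have p0 := Tm_of k₁ τ₁ hO₁ ha (Dl_pt c₁ k₁ n₂)
    have p2 := Tm_of k₁ τ₁ hO₁ hb' (Dl_pt c₁ k₁ n₁)
    rcases hcase₂ with ⟨hc', hd⟩ | ⟨hc', hd⟩
    · -- case C
      have q0 := Tm_of k₂ τ₂ hO₂ hc' (Dl_pt c₂ k₂ n₂)
      have q1 := Tm_of k₂ τ₂ hO₂ hd (Dl_pt c₂ k₂ n₁)
      have hAS : St f (T₂ * T₂) := hS₂.mul hS₂
      have A2 : (T₂ * T₂).linear (pt n₂ 0) = c₂ • pt n₂ 0 := by
        rw [lmul q2 q0]; congr 1; linear_combination c₂ * he₂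
      have A0 : (T₂ * T₂).linear ev = c₂ • ev := by
        rw [lmul q0 q2]; congr 1; linear_combination c₂ * he₂
      have A1 : (T₂ * T₂).linear (pt n₁ 0) = (c₂ * c₂) • pt n₁ 0 := by
        rw [lmul q1 q1]; congr 1; linear_combination c₂ * c₂ * he₂
      have hBS : St f (T₁ * (T₂ * T₂) * T₁⁻¹) := (hS₁.mul hAS).mul hS₁.inv
      have B0 := cj n10 p1 A1
      have B1 := cj n11 p2 A2
      have B2 := cj n11 p0 A0
      have hCS := (hS₁.mul hBS).mul hS₁.inv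
      have C0 := cj n10 p1 B1
      have C1 := cj n11 p2 B2
      have C2 := cj n11 p0 B0
      exact fin3 h3 hf h1 h2 h12 hb hAS hBS hCS hc₂ hc₂1 A1 A2 A0 B1 B2 B0 C1 C2 C0 (by ring) rfl rfl
    · -- case D
      have q0 := Tm_of k₂ τ₂ hO₂ hc' (Dl_pt c₂ k₂ n₁)
      have q1 := Tm_of k₂ τ₂ hO₂ hd (Dl_pt c₂ k₂ n₂)
      have hee : (e₁ * e₂) * (e₁ * e₂) = 1 := by linear_combination e₂ * e₂ * he₁ + he₂
      have hvS₁ : St f (T₁ * T₂) := hS₁.mul hS₂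
      have hvS₂ : St f (T₂ * T₁) := hS₂.mul hS₁
      have v1 : (T₁ * T₂).linear (pt n₁ 0) = (e₁ * e₂ * (c₁ * c₂)) • pt n₁ 0 := by
        rw [lmul q1 p2]; congr 1; ring
      have v2 : (T₁ * T₂).linear (pt n₂ 0) = (e₁ * e₂ * c₁) • pt n₂ 0 := by
        rw [lmul q2 p0]; congr 1; ring
      have v0 : (T₁ * T₂).linear ev = (e₁ * e₂ * c₂) • ev := by
        rw [lmul q0 p1]; congr 1; ring
      have w1 : (T₂ * T₁).linear (pt n₁ 0) = (e₁ * e₂ * c₂) • pt n₁ 0 := by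
        rw [lmul p1 q0]; congr 1; ring
      have w2 : (T₂ * T₁).linear (pt n₂ 0) = (e₁ * e₂ * (c₁ * c₂)) • pt n₂ 0 := by
        rw [lmul p2 q1]; congr 1; ring
      have w0 : (T₂ * T₁).linear ev = (e₁ * e₂ * c₁) • ev := by
        rw [lmul p0 q2]; congr 1; ring
      have hvS₃ : St f (T₁ * (T₁ * T₂) * T₁⁻¹) := (hS₁.mul hvS₁).mul hS₁.inv
      have u0 := cj n10 p1 v1
      have u1 := cj n11 p2 v2
      have u2 := cj n11 p0 v0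
      have m12 : c₁ * c₂ ≠ 0 := mul_ne_zero k₁ k₂
      rcases lt_or_gt_of_ne hc₁1 with l1 | l1
      · rcases lt_or_gt_of_ne hc₂1 with l2 | l2
        · rcases lt_or_gt_of_ne hcc with l3 | l3
          · -- `c₁ < c₂ < 1`: `v₃ v₁⁻¹`
            refine fin2 h3 hf h1 h2 h12 hb hvS₃ hvS₁ hee u1 u2 u0 v1 v2 v0 m12 k₁ k₂
              (r₁ := 1 / c₂) (r₂ := c₂ / c₁) (r₃ := c₁) (by field_simp) (by field_simp) (by ring)
              (Or.inr ⟨?_, ?_, hc₁, l1.le⟩)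
            · rw [lt_div_iff₀ hc₂]; linarith
            · rw [lt_div_iff₀ hc₁]; linarith
          · -- `c₂ < c₁ < 1`: `v₃ v₂⁻¹`
            refine fin2 h3 hf h1 h2 h12 hb hvS₃ hvS₂ hee u1 u2 u0 w1 w2 w0 k₂ m12 k₁
              (r₁ := c₁ / c₂) (r₂ := 1 / c₁) (r₃ := c₂) (by field_simp) (by field_simp) (by ring)
              (Or.inr ⟨?_, ?_, hc₂, l2.le⟩)
            · rw [lt_div_iff₀ hc₂]; linarith
            · rw [lt_div_iff₀ hc₁]; linarith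
        · -- `c₁ < 1 < c₂`: `v₂ v₁⁻¹`
          refine fin2 h3 hf h1 h2 h12 hb hvS₂ hvS₁ hee w1 w2 w0 v1 v2 v0 m12 k₁ k₂
            (r₁ := 1 / c₁) (r₂ := c₂) (r₃ := c₁ / c₂) (by field_simp) (by ring) (by field_simp)
            (Or.inr ⟨?_, l2, by positivity, ?_⟩)
          · rw [lt_div_iff₀ hc₁]; linarith
          · rw [div_le_one₀ hc₂]; linarith
      · rcases lt_or_gt_of_ne hc₂1 with l2 | l2
        · -- `c₂ < 1 < c₁`: `v₂ v₁⁻¹`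
          refine fin2 h3 hf h1 h2 h12 hb hvS₂ hvS₁ hee w1 w2 w0 v1 v2 v0 m12 k₁ k₂
            (r₁ := 1 / c₁) (r₂ := c₂) (r₃ := c₁ / c₂) (by field_simp) (by ring) (by field_simp)
            (Or.inl ⟨by positivity, ?_, hc₂, l2, ?_⟩)
          · rw [div_lt_one₀ hc₁]; linarith
          · rw [le_div_iff₀ hc₂]; linarith
        · rcases lt_or_gt_of_ne hcc with l3 | l3
          · -- `1 < c₁ < c₂`: `v₃ v₂⁻¹`
            refine fin2 h3 hf h1 h2 h12 hb hvS₃ hvS₂ hee u1 u2 u0 w1 w2 w0 k₂ m12 k₁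
              (r₁ := c₁ / c₂) (r₂ := 1 / c₁) (r₃ := c₂) (by field_simp) (by field_simp) (by ring)
              (Or.inl ⟨by positivity, ?_, by positivity, ?_, l2.le⟩)
            · rw [div_lt_one₀ hc₂]; linarith
            · rw [div_lt_one₀ hc₁]; linarith
          · -- `1 < c₂ < c₁`: `v₃ v₁⁻¹`
            refine fin2 h3 hf h1 h2 h12 hb hvS₃ hvS₁ hee u1 u2 u0 v1 v2 v0 m12 k₁ k₂
              (r₁ := 1 / c₂) (r₂ := c₂ / c₁) (r₃ := c₁) (by field_simp) (by field_simp) (by ring)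
              (Or.inl ⟨by positivity, ?_, by positivity, ?_, l1.le⟩)
            · rw [div_lt_one₀ hc₂]; linarith
            · rw [div_lt_one₀ hc₁]; linarith

end Pool.Agent.Q95.H2.O2
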